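import Pool.Agent.Q218.HB.Stm5

/-!
# Project HB3 (helper218), job SLC: the slab estimate for functions of norm at most one
-/

set_option autoImplicit false

namespace Pool.Agent.Q181.HB3

open Pool.Agent.Q218.HB

/-- scaling of a quadratic inequality -/
theorem scale {Λ : Type} [Fintype Λ] (A : Set Λ) (K M : Λ → Λ → ℂ) (w : ℂ) (T : ℝ) (hT : 0 ≤ T)
    (H : ∀ φ : Λ → ℂ, ∑ x, ‖φ x‖ ^ 2 = 1 → ∑ x, Set.indicator A (fun x => ‖φ x‖ ^ 2) x ≤
      T + 8 * ∑ x, ‖∑ y, K x y * φ y‖ ^ 2 + 2 * ∑ x, ‖φ x - w * ∑ y, M x y * φ y‖ ^ 2)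
    (φ : Λ → ℂ) (hφ : ∑ x, ‖φ x‖ ^ 2 ≤ 1) : ∑ x, Set.indicator A (fun x => ‖φ x‖ ^ 2) x ≤
      T + 8 * ∑ x, ‖∑ y, K x y * φ y‖ ^ 2 + 2 * ∑ x, ‖φ x - w * ∑ y, M x y * φ y‖ ^ 2 := by
  set s : ℝ := ∑ x, ‖φ x‖ ^ 2 with hs
  have hs0 : 0 ≤ s := Finset.sum_nonneg fun x _ => sq_nonneg _
  rcases hs0.eq_or_lt with h0 | h0
  · have hz : ∀ x, ‖φ x‖ ^ 2 = 0 := by
      intro x
      have h := (Finset.sum_eq_zero_iff_of_nonneg
        (s := Finset.univ) (f := fun x => ‖φ x‖ ^ 2) (fun x _ => sq_nonneg _)).1 h0.symm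
      exact h x (Finset.mem_univ x)
    have hL : ∑ x, Set.indicator A (fun x => ‖φ x‖ ^ 2) x = 0 := by
      apply Finset.sum_eq_zero
      intro x _
      simp only [hz]
      simp
    rw [hL]
    positivity
  · set c : ℝ := (√s)⁻¹ with hc
    have hc2 : c ^ 2 = s⁻¹ := by
      rw [hc, inv_pow, Real.sq_sqrt hs0]
    have hn : ∀ z : ℂ, ‖(c : ℂ) * z‖ ^ 2 = c ^ 2 * ‖z‖ ^ 2 := by
      intro z
      rw [norm_mul, mul_pow, Complex.norm_real, Real.norm_eq_abs, sq_abs]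
    have h1 : ∑ x, ‖(c : ℂ) * φ x‖ ^ 2 = 1 := by
      simp only [hn]
      rw [← Finset.mul_sum, hc2, ← hs]
      exact inv_mul_cancel₀ h0.ne'
    have h2 := H (fun x => (c : ℂ) * φ x) h1
    have h3 : ∑ x, Set.indicator A (fun x => ‖(c : ℂ) * φ x‖ ^ 2) x =
        c ^ 2 * ∑ x, Set.indicator A (fun x => ‖φ x‖ ^ 2) x := by
      rw [Finset.mul_sum]
      apply Finset.sum_congr rfl
      intro x _
      by_cases hx : x ∈ A
      · rw [Set.indicator_of_mem hx, Set.indicator_of_mem hx, hn]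
      · rw [Set.indicator_of_notMem hx, Set.indicator_of_notMem hx, mul_zero]
    have h4 : ∑ x, ‖∑ y, K x y * ((c : ℂ) * φ y)‖ ^ 2 = c ^ 2 * ∑ x, ‖∑ y, K x y * φ y‖ ^ 2 := by
      rw [Finset.mul_sum]
      apply Finset.sum_congr rfl
      intro x _
      rw [← hn]
      congr 2
      rw [Finset.mul_sum]
      apply Finset.sum_congr rfl
      intro y _
      ring
    have h5 : ∑ x, ‖(c : ℂ) * φ x - w * ∑ y, M x y * ((c : ℂ) * φ y)‖ ^ 2 =
        c ^ 2 * ∑ x, ‖φ x - w * ∑ y, M x y * φ y‖ ^ 2 := by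
      rw [Finset.mul_sum]
      apply Finset.sum_congr rfl
      intro x _
      rw [← hn]
      congr 2
      rw [mul_sub, Finset.mul_sum, Finset.mul_sum, Finset.mul_sum]
      congr 1
      apply Finset.sum_congr rfl
      intro y _
      ring
    rw [h3, h4, h5, hc2] at h2
    set L := ∑ x, Set.indicator A (fun x => ‖φ x‖ ^ 2) x
    set X := ∑ x, ‖∑ y, K x y * φ y‖ ^ 2
    set Y := ∑ x, ‖φ x - w * ∑ y, M x y * φ y‖ ^ 2
    have h6 : L = s * (s⁻¹ * L) := by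
      rw [← mul_assoc, mul_inv_cancel₀ h0.ne', one_mul]
    have h7 : s * (s⁻¹ * L) ≤ s * (T + 8 * (s⁻¹ * X) + 2 * (s⁻¹ * Y)) :=
      mul_le_mul_of_nonneg_left h2 hs0
    have h8 : s * (T + 8 * (s⁻¹ * X) + 2 * (s⁻¹ * Y)) = s * T + 8 * X + 2 * Y := by
      field_simp
    have h9 : s * T ≤ T := by
      have := mul_le_mul_of_nonneg_right hφ hT
      linarith
    linarith

theorem slc : S_SLC := by
  intro hSLB hINV hOPB hCOM d n _ i L hL hn E η ε e hη hε hε1 he φ hφ b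
  have hT : 0 ≤ 400 / ε ^ 2 * ((L : ℝ) * η + 1 / L) := by positivity
  exact scale {x : Tor d n | x i ∈ slab b L} (fun x y => Km i ε x y)
    (fun x y => G hop (fun _ => 0) (pt E η) x y) ((e : ℂ) - pt E η) _ hT
    (fun φ hφ => hSLB hINV hOPB hCOM d n i L hL hn E η ε e hη hε hε1 he φ hφ b) φ hφ

end Pool.Agent.Q181.HB3
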